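import Pool.Agent.Helper64.RN.Goals2

/-!
# Project RN part 2 (MP_d01c92_ag), packet RN2-WR (helper33)
-/

set_option autoImplicit false

universe u

namespace Pool.Agent.Helper33.RN.WR

open Matrix

variable {K Ω : Type u} [Field K] [Field Ω] [Algebra K Ω] (δ : Derivation K Ω Ω)

/-- Derivatives. -/
def D (j : ℕ) (g : Ω) : Ω := (fun g => δ g)^[j] g

theorem D_zero (g : Ω) : D δ 0 g = g := rfl

theorem D_succ (j : ℕ) (g : Ω) : D δ (j + 1) g = δ (D δ j g) := by
  unfold D
  rw [Function.iterate_succ_apply']

theorem main (hδ : ∀ g : Ω, δ g = 0 → ∃ c : K, algebraMap K Ω c = g) :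
    ∀ (p : ℕ) (η : Fin p → Ω), LinearIndependent K η →
      Matrix.det (fun i j : Fin p => D δ (j : ℕ) (η i)) ≠ 0 := by
  intro p
  induction p with
  | zero =>
    intro η _
    rw [Matrix.det_fin_zero]
    exact one_ne_zero
  | succ p ih =>
    intro η hη h0
    have hW := ih (η ∘ Fin.castSucc) (hη.comp _ (Fin.castSucc_injective p))
    obtain ⟨c, hc0, hc⟩ := Matrix.exists_vecMul_eq_zero_iff.2 h0
    have hc' : ∀ j : Fin (p + 1), ∑ i, c i * D δ (j : ℕ) (η i) = 0 := fun j => congrFun hc j
    -- the last coefficient
    have key : ∀ b : Fin p → Ω, (∀ j : Fin p, ∑ i : Fin p, b i * D δ (j : ℕ) (η i.castSucc) = 0) →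
        b = 0 := by
      intro b hb
      by_contra hb0
      exact hW (Matrix.exists_vecMul_eq_zero_iff.1 ⟨b, hb0, funext hb⟩)
    have hcl : c (Fin.last p) ≠ 0 := by
      intro hl
      apply hc0
      have h1 : (fun i : Fin p => c i.castSucc) = 0 := key _ fun j => by
        have := hc' j.castSucc
        rw [Fin.sum_univ_castSucc, hl, zero_mul, add_zero] at this
        exact this
      funext i
      refine Fin.lastCases ?_ (fun i => ?_) i
      · exact hl
      · exact congrFun h1 i
    -- normalise
    set e : Fin p → Ω := fun i => c i.castSucc / c (Fin.last p) with he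
    have hE : ∀ j : ℕ, j < p + 1 → ∑ i : Fin p, e i * D δ j (η i.castSucc) +
        D δ j (η (Fin.last p)) = 0 := by
      intro j hj
      have h1 := hc' ⟨j, hj⟩
      rw [Fin.sum_univ_castSucc] at h1
      simp only at h1
      have h2 : c (Fin.last p) * (∑ i : Fin p, e i * D δ j (η i.castSucc) +
          D δ j (η (Fin.last p))) = 0 := by
        rw [mul_add, Finset.mul_sum]
        rw [← h1]
        congr 1
        refine Finset.sum_congr rfl fun i _ => ?_
        rw [he]
        field_simp
      exact (mul_eq_zero.1 h2).resolve_left hcl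
    have hδe : (fun i => δ (e i)) = 0 := key _ fun j => by
      have h1 := hE j (by omega)
      have h2 := hE (j + 1) (by omega)
      have h3 : δ (∑ i : Fin p, e i * D δ (j : ℕ) (η i.castSucc) +
        D δ (j : ℕ) (η (Fin.last p))) = 0 := by rw [h1, map_zero]
      rw [map_add, map_sum] at h3
      simp only [Derivation.leibniz, smul_eq_mul, ← D_succ, Finset.sum_add_distrib] at h3
      have h4 : ∑ i : Fin p, D δ (j : ℕ) (η i.castSucc) * δ (e i) = 0 := by
        linear_combination h3 - h2
      rw [← h4]
      exact Finset.sum_congr rfl fun i _ => mul_comm _ _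
    choose k hk using fun i : Fin p => hδ (e i) (congrFun hδe i)
    -- a relation
    have h0' := hE 0 (by omega)
    simp only [D_zero] at h0'
    have h1 : ∑ i : Fin (p + 1), (Fin.lastCases (1 : K) k i : K) • η i = 0 := by
      rw [Fin.sum_univ_castSucc, Fin.lastCases_last, one_smul, ← h0']
      congr 1
      refine Finset.sum_congr rfl fun i _ => ?_
      rw [Fin.lastCases_castSucc, Algebra.smul_def, hk]
    have h2 := Fintype.linearIndependent_iff.1 hη (fun i => Fin.lastCases (1 : K) k i) h1
      (Fin.last p)
    rw [Fin.lastCases_last] at h2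
    exact one_ne_zero h2

theorem t : Pool.Agent.Helper64.RN.S_WR.{u} := by
  intro K Ω _ _ _ δ hδ p η hη
  exact main δ hδ p η hη

end Pool.Agent.Helper33.RN.WR
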